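import Pool.Agent.P8H31.PW.Lim

/-! Project PWV (helper31): the limit theorem. -/

set_option autoImplicit false
open MeasureTheory Filter Topology Complex ProbabilityTheory
open scoped ContDiff ENNReal

namespace Pool.Agent.P8H31.PW

open Pool.Agent.W745.RW (TF lap dx dy)
open Pool.Agent.Results.MP_4fa179_mp.FourthOrderRigidity (D sym W C G ep)

lemma C_val {m : ℂ → ℝ} {ν : Kernel ℂ ℝ} [IsMarkovKernel ν] {z : ℂ}
    (hν : ∀ k : ℤ, k ≠ 0 → ∫ α, sym α ^ k ∂(ν z) = 0) (a b : ℤ) :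
    C m ν a b z = if a + b = 0 then (-1) ^ a.natAbs * (m z : ℂ) else 0 := by
  unfold C
  by_cases h : a + b = 0
  · rw [if_pos h, if_pos (by rw [h]; exact Even.zero), h]
    simp
  · rw [if_neg h, hν _ h]
    simp

/-- the Gaussian weight -/
noncomputable def gg (a b c d : ℕ) : ℝ := (if a + b = 0 then (1 : ℝ) else 0) +
      (if a = c ∧ b = d then 1 else 0) + (if a = d ∧ b = c then 1 else 0)

/-- the weight of the excess -/
noncomputable def wt (a c d : ℕ) : ℝ := (1 / 3 : ℝ) * (1 + (-1) ^ (a + c) + (-1) ^ (a + d))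

lemma G_val {m : ℂ → ℝ} {ν : Kernel ℂ ℝ} [IsMarkovKernel ν] {z : ℂ}
    (hν : ∀ k : ℤ, k ≠ 0 → ∫ α, sym α ^ k ∂(ν z) = 0) {a b c d : ℕ} (h : a + b = c + d) :
    (-1 : ℂ) ^ (c + d) * G m ν a b (-(c : ℤ)) (-(d : ℤ)) z = (gg a b c d : ℂ) * (m z : ℂ) ^ 2 := by
  unfold G gg
  simp only [C_val hν]
  have h1 : ((a : ℤ) + b = 0) ↔ a + b = 0 := by omega
  have h2 : (-(c : ℤ) + -(d : ℤ) = 0) ↔ a + b = 0 := by omega
  have h3 : ((a : ℤ) + -(c : ℤ) = 0) ↔ a = c := by omega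
  have h4 : ((b : ℤ) + -(d : ℤ) = 0) ↔ a = c := by omega
  have h5 : ((a : ℤ) + -(d : ℤ) = 0) ↔ a = d := by omega
  have h6 : ((b : ℤ) + -(c : ℤ) = 0) ↔ a = d := by omega
  have h7 : (a = c ∧ b = d) ↔ a = c := by omega
  have h8 : (a = d ∧ b = c) ↔ a = d := by omega
  simp only [h1, h2, h3, h4, h5, h6, h7, h8, Int.natAbs_natCast, Int.natAbs_neg]
  have e1 : (if a + b = 0 then (-1 : ℂ) ^ a * (m z : ℂ) else 0) *
      (if a + b = 0 then (-1 : ℂ) ^ c * (m z : ℂ) else 0) =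
      (if a + b = 0 then (1 : ℂ) else 0) * ((-1) ^ (a + b) * (m z : ℂ) ^ 2) := by
    by_cases h0 : a + b = 0
    · obtain rfl : a = 0 := by omega
      obtain rfl : b = 0 := by omega
      obtain rfl : c = 0 := by omega
      simp; ring
    · rw [if_neg h0, if_neg h0, if_neg h0]; ring
  have e2 : (if a = c then (-1 : ℂ) ^ a * (m z : ℂ) else 0) *
      (if a = c then (-1 : ℂ) ^ b * (m z : ℂ) else 0) =
      (if a = c then (1 : ℂ) else 0) * ((-1) ^ (a + b) * (m z : ℂ) ^ 2) := by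
    by_cases h0 : a = c
    · simp only [h0, if_true, pow_add]; ring
    · rw [if_neg h0, if_neg h0, if_neg h0]; ring
  have e3 : (if a = d then (-1 : ℂ) ^ a * (m z : ℂ) else 0) *
      (if a = d then (-1 : ℂ) ^ b * (m z : ℂ) else 0) =
      (if a = d then (1 : ℂ) else 0) * ((-1) ^ (a + b) * (m z : ℂ) ^ 2) := by
    by_cases h0 : a = d
    · simp only [h0, if_true, pow_add]; ring
    · rw [if_neg h0, if_neg h0, if_neg h0]; ring
  rw [e1, e2, e3, ← h]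
  have e4 : (-1 : ℂ) ^ (a + b) * (-1) ^ (a + b) = 1 := by
    rw [← pow_add]; exact Even.neg_one_pow ⟨a + b, rfl⟩
  have c1 : ∀ (p : Prop) [Decidable p], (((if p then (1 : ℝ) else 0 : ℝ)) : ℂ) =
      if p then 1 else 0 := by
    intro p _; split_ifs <;> simp
  simp only [ofReal_add, c1]
  linear_combination ((if a + b = 0 then (1 : ℂ) else 0) + (if a = c then (1 : ℂ) else 0) +
    (if a = d then (1 : ℂ) else 0)) * (m z : ℂ) ^ 2 * e4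

/-- sums over the quadruples with `a + b = c + d` -/
noncomputable def SS (N : ℕ) (F : ℕ → ℕ → ℕ → ℕ → ℂ) : ℂ :=
  ∑ a ∈ Finset.range N, ∑ b ∈ Finset.range N, ∑ c ∈ Finset.range N, ∑ d ∈ Finset.range N,
    if a + b = c + d then F a b c d else 0

lemma SS_congr {N : ℕ} {F F' : ℕ → ℕ → ℕ → ℕ → ℂ}
    (h : ∀ a b c d : ℕ, a + b = c + d → F a b c d = F' a b c d) : SS N F = SS N F' := by
  unfold SS
  refine Finset.sum_congr rfl fun a _ => Finset.sum_congr rfl fun b _ =>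
    Finset.sum_congr rfl fun c _ => Finset.sum_congr rfl fun d _ => ?_
  split_ifs with h0
  · exact h a b c d h0
  · rfl

lemma SS_lin {N : ℕ} (x w g : ℕ → ℕ → ℕ → ℕ → ℂ) (T e M : ℂ) :
    SS N (fun a b c d => (x a b c d - (w a b c d * e + g a b c d * M)) / T) =
      (SS N x - (SS N w * e + SS N g * M)) / T := by
  unfold SS
  simp only [Finset.sum_mul, ← Finset.sum_add_distrib, ← Finset.sum_sub_distrib, Finset.sum_div]
  refine Finset.sum_congr rfl fun a _ => Finset.sum_congr rfl fun b _ =>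
    Finset.sum_congr rfl fun c _ => Finset.sum_congr rfl fun d _ => ?_
  split_ifs <;> simp

lemma SS_lim {N : ℕ} {X : ℕ → ℕ → ℕ → ℕ → ℕ → ℂ}
    (h : ∀ a b c d : ℕ, a + b = c + d → Tendsto (fun n => X n a b c d) atTop (𝓝 0)) :
    Tendsto (fun n => SS N (X n)) atTop (𝓝 0) := by
  suffices h1 : Tendsto (fun n => SS N (X n)) atTop (𝓝 (∑ a ∈ Finset.range N,
      ∑ b ∈ Finset.range N, ∑ c ∈ Finset.range N, ∑ d ∈ Finset.range N, (0 : ℂ))) by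
    simpa using h1
  unfold SS
  apply tendsto_finset_sum; intro a _
  apply tendsto_finset_sum; intro b _
  apply tendsto_finset_sum; intro c _
  apply tendsto_finset_sum; intro d _
  split_ifs with h0
  · exact h a b c d h0
  · exact (tendsto_const_nhds : Tendsto (fun _ : ℕ => (0 : ℂ)) atTop (𝓝 0))

lemma SS_w (WSUM : S_WSUM) (N : ℕ) :
    SS N (fun a _ c d => (wt a c d : ℂ)) = (((2 * (N : ℝ) ^ 3 + 7 * N) / 9 : ℝ) : ℂ) := by
  rw [← WSUM N]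
  unfold SS wt
  push_cast
  refine Finset.sum_congr rfl fun a _ => Finset.sum_congr rfl fun b _ =>
    Finset.sum_congr rfl fun c _ => Finset.sum_congr rfl fun d _ => ?_
  split_ifs <;> simp

lemma SS_g (GSUM : S_GSUM) {N : ℕ} (hN : 1 ≤ N) :
    SS N (fun a b c d => (gg a b c d : ℂ)) = ((2 * (N : ℝ) ^ 2 + 1 : ℝ) : ℂ) := by
  rw [← GSUM N hN]
  unfold SS gg
  push_cast
  refine Finset.sum_congr rfl fun a _ => Finset.sum_congr rfl fun b _ =>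
    Finset.sum_congr rfl fun c _ => Finset.sum_congr rfl fun d _ => ?_
  split_ifs <;> simp

/-- **the limit theorem** -/
theorem limit (FOU : S_FOU) (WSUM : S_WSUM) (GSUM : S_GSUM) (Ω : Set ℂ) (hΩ : IsOpen Ω)
    (ρ : ℂ → ℝ) (hρ : ContDiffOn ℝ ∞ ρ Ω)
    (hρ0 : ∀ z ∈ Ω, 0 < ρ z) (lam : ℕ → ℝ) (hpos : ∀ n, 0 < lam n)
    (hlam : Tendsto lam atTop atTop) (u : ℕ → ℂ → ℝ) (hu : ∀ n, ContDiffOn ℝ ∞ (u n) Ω)
    (heq : ∀ n, ∀ z ∈ Ω, lap (u n) z + lam n * (ρ z * u n z) = 0)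
    (m : ℂ → ℝ) (hm : ∀ K : Set ℂ, IsCompact K → K ⊆ Ω → MemLp m 2 (volume.restrict K))
    (ν : Kernel ℂ ℝ) [IsMarkovKernel ν]
    (hsc : ∀ φ, TF Ω φ → ∀ k : ℕ, Tendsto (fun n => ∫ z, ((φ z * ρ z : ℝ) : ℂ) *
      ((u n z : ℂ) * (D ρ (lam n))^[k] (fun w => (u n w : ℂ)) z)) atTop
      (𝓝 (∫ z, ((φ z * ρ z : ℝ) : ℂ) * ((m z : ℂ) * ∫ α, sym α ^ k ∂(ν z)))))
    (hν : ∀ z ∈ Ω, ∀ k : ℤ, k ≠ 0 → ∫ α, sym α ^ k ∂(ν z) = 0)
    (K : Set ℂ) (hK : IsCompact K) (hKΩ : K ⊆ Ω) (φ : ℂ → ℝ) (hφ : TF (interior K) φ)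
    (N : ℕ) (hN : 1 ≤ N) :
    Tendsto (fun n => ((∑ j ∈ Finset.range (2 * N), ∫ z, φ z * ρ z *
        ‖pw ρ (lam n) (u n) N (dir N j) z‖ ^ 4) -
      ((4 / 9 + 14 / (9 * (N : ℝ) ^ 2)) *
          ((∫ z, φ z * ρ z * u n z ^ 4) - 3 * ∫ z, φ z * ρ z * m z ^ 2) +
        (4 * (N : ℝ) ^ 2 + 2) / (N : ℝ) ^ 3 * ∫ z, φ z * ρ z * m z ^ 2)) /
      (1 + ∫ z in K, u n z ^ 4)) atTop (𝓝 0) := by
  have hKi : interior K ⊆ Ω := interior_subset.trans hKΩ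
  have hφΩ : TF Ω φ := ⟨hφ.1, hφ.2.1, hφ.2.2.trans hKi⟩
  have hw : TF Ω (fun z => φ z * ρ z) := Pool.Agent.TH294.RS.TF.mulc hΩ hφΩ hρ
  have N0 : (N : ℝ) ≠ 0 := by exact_mod_cast (by omega : N ≠ 0)
  obtain ⟨M, hM⟩ : ∃ M : ℝ, M = ∫ z, φ z * ρ z * m z ^ 2 := ⟨_, rfl⟩
  obtain ⟨Q, hQ⟩ : ∃ Q : ℕ → ℝ, Q = fun n => ∫ z, φ z * ρ z * u n z ^ 4 := ⟨_, rfl⟩
  obtain ⟨T, hT⟩ : ∃ T : ℕ → ℝ, T = fun n => 1 + ∫ z in K, u n z ^ 4 := ⟨_, rfl⟩
  obtain ⟨J, hJ⟩ : ∃ J : ℕ → ℕ → ℕ → ℕ → ℕ → ℂ, J = fun (n a b c d : ℕ) => ∫ z, ((φ z * ρ z : ℝ) : ℂ) *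
      (W ρ (lam n) (u n) a z * W ρ (lam n) (u n) b z * W ρ (lam n) (u n) (-(c : ℤ)) z *
        W ρ (lam n) (u n) (-(d : ℤ)) z) := ⟨_, rfl⟩
  have key : ∀ a b c d : ℕ, a + b = c + d → Tendsto (fun n =>
      ((-1) ^ (c + d) * J n a b c d - ((wt a c d : ℂ) * ((Q n - 3 * M : ℝ) : ℂ) +
        (gg a b c d : ℂ) * (M : ℂ))) / ((T n : ℝ) : ℂ)) atTop (𝓝 0) := by
    intro a b c d h
    have h1 := Pool.Agent.Results.MP_4fa179_mp.FourthOrderRigidity.result Ω hΩ ρ hρ hρ0 lam hpos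
      hlam u hu heq m hm ν hsc K hK hKΩ φ hφ a b (-(c : ℤ)) (-(d : ℤ)) (by omega)
    have h2 := h1.const_mul ((-1 : ℂ) ^ (c + d))
    rw [mul_zero] at h2
    refine h2.congr fun n => ?_
    have e1 : ∫ z, ((φ z * ρ z : ℝ) : ℂ) * (G m ν a b (-(c : ℤ)) (-(d : ℤ)) z -
        3 * ep a b (-(c : ℤ)) (-(d : ℤ)) * (m z : ℂ) ^ 2) =
        ((-1) ^ (c + d) * (gg a b c d : ℂ) - 3 * ep a b (-(c : ℤ)) (-(d : ℤ))) * (M : ℂ) := by
      rw [hM, ← integral_complex_ofReal, ← integral_const_mul]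
      congr 1; funext z
      by_cases hz : z ∈ Ω
      · have g1 := G_val (m := m) (ν := ν) (hν z hz) h
        have g2 : (-1 : ℂ) ^ (c + d) * (-1) ^ (c + d) = 1 := by
          rw [← pow_add]; exact Even.neg_one_pow ⟨c + d, rfl⟩
        have g3 : G m ν a b (-(c : ℤ)) (-(d : ℤ)) z =
            (-1) ^ (c + d) * ((gg a b c d : ℂ) * (m z : ℂ) ^ 2) := by
          rw [← g1, ← mul_assoc, g2, one_mul]
        rw [g3]; push_cast; ring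
      · rw [Pool.Agent.TH294.RS.TF.zero hφΩ hz]; simp
    have e2 := weight h
    have g2 : (-1 : ℂ) ^ (c + d) * (-1) ^ (c + d) = 1 := by
      rw [← pow_add]; exact Even.neg_one_pow ⟨c + d, rfl⟩
    have e3 : (wt a c d : ℂ) = (-1 : ℂ) ^ (c + d) * ep a b (-(c : ℤ)) (-(d : ℤ)) := by
      rw [e2]; rfl
    rw [e1, e3, hJ, hQ, hT]
    rw [← mul_div_assoc]
    congr 1
    push_cast
    linear_combination (-(gg a b c d : ℂ) * (M : ℂ)) * g2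
  have S1 := (SS_lim (N := N) key).const_mul (2 / (N : ℂ) ^ 3)
  rw [mul_zero] at S1
  have S2 := (Complex.continuous_re.tendsto _).comp S1
  rw [zero_re] at S2
  refine S2.congr fun n => ?_
  simp only [Function.comp_def]
  rw [SS_lin (fun a b c d => (-1) ^ (c + d) * J n a b c d) (fun a _ c d => (wt a c d : ℂ))
    (fun a b c d => (gg a b c d : ℂ)) ((T n : ℝ) : ℂ) ((Q n - 3 * M : ℝ) : ℂ) (M : ℂ),
    SS_w WSUM, SS_g GSUM hN]
  have I1 := integ FOU hΩ hρ hρ0 (hpos n) (hu n) hw hN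
  have I2 : 2 / (N : ℂ) ^ 3 * SS N (fun a b c d => (-1) ^ (c + d) * J n a b c d) =
      ((∑ j ∈ Finset.range (2 * N), ∫ z, φ z * ρ z *
        ‖pw ρ (lam n) (u n) N (dir N j) z‖ ^ 4 : ℝ) : ℂ) := by
    rw [I1, hJ]; rfl
  rw [← mul_div_assoc, mul_sub, I2]
  have e5 : ((∑ j ∈ Finset.range (2 * N), ∫ z, φ z * ρ z *
        ‖pw ρ (lam n) (u n) N (dir N j) z‖ ^ 4 : ℝ) : ℂ) - 2 / (N : ℂ) ^ 3 *
        ((((2 * (N : ℝ) ^ 3 + 7 * N) / 9 : ℝ) : ℂ) * ((Q n - 3 * M : ℝ) : ℂ) +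
          ((2 * (N : ℝ) ^ 2 + 1 : ℝ) : ℂ) * (M : ℂ)) =
      (((∑ j ∈ Finset.range (2 * N), ∫ z, φ z * ρ z *
        ‖pw ρ (lam n) (u n) N (dir N j) z‖ ^ 4) - 2 / (N : ℝ) ^ 3 *
        (((2 * (N : ℝ) ^ 3 + 7 * N) / 9) * (Q n - 3 * M) + (2 * (N : ℝ) ^ 2 + 1) * M) : ℝ) : ℂ) := by
    push_cast; rfl
  rw [e5, ← ofReal_div, ofReal_re, ← hM]
  rw [hQ, hT]
  congr 1
  field_simp
  ring

end Pool.Agent.P8H31.PW
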