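import Pool.Agent.P8H31.PW.Main

/-! Project PWV (helper31): the limit of the sum over the directions. -/

set_option autoImplicit false
open MeasureTheory Filter Topology Complex ProbabilityTheory
open scoped ContDiff ENNReal

namespace Pool.Agent.P8H31.PW

open Pool.Agent.W745.RW (TF lap dx dy)
open Pool.Agent.Results.MP_4fa179_mp.FourthOrderRigidity (D sym W C G ep)

lemma D_cont {Ω : Set ℂ} (hΩ : IsOpen Ω) {ρ : ℂ → ℝ} (hρ : ContDiffOn ℝ ∞ ρ Ω)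
    (hρ0 : ∀ z ∈ Ω, 0 < ρ z) {lam : ℝ} (hl : 0 < lam) {u : ℂ → ℝ} (hu : ContDiffOn ℝ ∞ u Ω)
    (k : ℕ) : ContinuousOn ((D ρ lam)^[k] (fun w => (u w : ℂ))) Ω := by
  have e : D ρ lam = Pool.Agent.TH294.RS.DP (fun z => 1 / √(ρ z)) (1 / √lam) :=
    Pool.Agent.TH294.RS.RD_eq ρ hl.le
  rw [e]
  refine (Pool.Agent.TH294.RS.DPk_sm hΩ ?_ _ ?_ k).continuousOn
  · exact contDiffOn_const.div (hρ.sqrt fun z hz => (hρ0 z hz).ne')
      fun z hz => (Real.sqrt_pos.2 (hρ0 z hz)).ne'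
  · exact Complex.ofRealCLM.contDiff.comp_contDiffOn hu

lemma W_cont {Ω : Set ℂ} (hΩ : IsOpen Ω) {ρ : ℂ → ℝ} (hρ : ContDiffOn ℝ ∞ ρ Ω)
    (hρ0 : ∀ z ∈ Ω, 0 < ρ z) {lam : ℝ} (hl : 0 < lam) {u : ℂ → ℝ} (hu : ContDiffOn ℝ ∞ u Ω)
    (k : ℤ) : ContinuousOn (W ρ lam u k) Ω := by
  cases k with
  | ofNat k => exact D_cont hΩ hρ hρ0 hl hu k
  | negSucc k =>
    exact continuousOn_const.mul (Complex.continuous_conj.comp_continuousOn
      (D_cont hΩ hρ hρ0 hl hu (k + 1)))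

lemma pw_cont {Ω : Set ℂ} (hΩ : IsOpen Ω) {ρ : ℂ → ℝ} (hρ : ContDiffOn ℝ ∞ ρ Ω)
    (hρ0 : ∀ z ∈ Ω, 0 < ρ z) {lam : ℝ} (hl : 0 < lam) {u : ℂ → ℝ} (hu : ContDiffOn ℝ ∞ u Ω)
    (N : ℕ) (α : ℝ) : ContinuousOn (pw ρ lam u N α) Ω :=
  continuousOn_const.mul (continuousOn_finset_sum _ fun k _ =>
    continuousOn_const.mul (D_cont hΩ hρ hρ0 hl hu k))

/-- the integrated identity -/
theorem integ (FOU : S_FOU) {Ω : Set ℂ} (hΩ : IsOpen Ω) {ρ : ℂ → ℝ} (hρ : ContDiffOn ℝ ∞ ρ Ω)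
    (hρ0 : ∀ z ∈ Ω, 0 < ρ z) {lam : ℝ} (hl : 0 < lam) {u : ℂ → ℝ} (hu : ContDiffOn ℝ ∞ u Ω)
    {w : ℂ → ℝ} (hw : TF Ω w) {N : ℕ} (hN : 1 ≤ N) :
    ((∑ j ∈ Finset.range (2 * N), ∫ z, w z * ‖pw ρ lam u N (dir N j) z‖ ^ 4 : ℝ) : ℂ) =
      2 / (N : ℂ) ^ 3 * ∑ a ∈ Finset.range N, ∑ b ∈ Finset.range N, ∑ c ∈ Finset.range N,
        ∑ d ∈ Finset.range N, if a + b = c + d then (-1) ^ (c + d) * ∫ z, (w z : ℂ) *
          (W ρ lam u a z * W ρ lam u b z * W ρ lam u (-(c : ℤ)) z * W ρ lam u (-(d : ℤ)) z)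
          else 0 := by
  have i1 : ∀ j ∈ Finset.range (2 * N),
      Integrable (fun z => w z * ‖pw ρ lam u N (dir N j) z‖ ^ 4) := fun j _ =>
    Pool.Agent.W311.RW.int_mul hΩ hw ((pw_cont hΩ hρ hρ0 hl hu N _).norm.pow 4)
  have i2 : ∀ a b c d : ℤ, Integrable (fun z => (w z : ℂ) * (W ρ lam u a z * W ρ lam u b z *
      W ρ lam u c z * W ρ lam u d z)) := fun a b c d =>
    Pool.Agent.W686.RW.X.int_phi hw ((((W_cont hΩ hρ hρ0 hl hu a).mul
      (W_cont hΩ hρ hρ0 hl hu b)).mul (W_cont hΩ hρ hρ0 hl hu c)).mul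
      (W_cont hΩ hρ hρ0 hl hu d))
  rw [← integral_finset_sum _ i1, ← integral_complex_ofReal]
  have e1 : ∀ z, ((∑ j ∈ Finset.range (2 * N), w z * ‖pw ρ lam u N (dir N j) z‖ ^ 4 : ℝ) : ℂ) =
      2 / (N : ℂ) ^ 3 * ∑ a ∈ Finset.range N, ∑ b ∈ Finset.range N, ∑ c ∈ Finset.range N,
        ∑ d ∈ Finset.range N, (if a + b = c + d then (-1 : ℂ) ^ (c + d) else 0) * ((w z : ℂ) *
          (W ρ lam u a z * W ρ lam u b z * W ρ lam u (-(c : ℤ)) z * W ρ lam u (-(d : ℤ)) z)) := by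
    intro z
    rw [← Finset.mul_sum, ofReal_mul, point FOU ρ lam u hN z, ← mul_assoc, mul_comm (w z : ℂ),
      mul_assoc]
    congr 1
    simp only [Finset.mul_sum]
    refine Finset.sum_congr rfl fun a _ => Finset.sum_congr rfl fun b _ =>
      Finset.sum_congr rfl fun c _ => Finset.sum_congr rfl fun d _ => ?_
    split_ifs <;> ring
  simp only [e1]
  rw [integral_const_mul]
  congr 1
  have i3 : ∀ a b c d : ℕ, Integrable (fun z => (if a + b = c + d then (-1 : ℂ) ^ (c + d) else 0) *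
      ((w z : ℂ) * (W ρ lam u a z * W ρ lam u b z * W ρ lam u (-(c : ℤ)) z *
        W ρ lam u (-(d : ℤ)) z))) := fun a b c d => (i2 a b (-c) (-d)).const_mul _
  rw [integral_finset_sum _ fun a _ => integrable_finset_sum _ fun b _ =>
    integrable_finset_sum _ fun c _ => integrable_finset_sum _ fun d _ => i3 a b c d]
  refine Finset.sum_congr rfl fun a _ => ?_
  rw [integral_finset_sum _ fun b _ => integrable_finset_sum _ fun c _ =>
    integrable_finset_sum _ fun d _ => i3 a b c d]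
  refine Finset.sum_congr rfl fun b _ => ?_
  rw [integral_finset_sum _ fun c _ => integrable_finset_sum _ fun d _ => i3 a b c d]
  refine Finset.sum_congr rfl fun c _ => ?_
  rw [integral_finset_sum _ fun d _ => i3 a b c d]
  refine Finset.sum_congr rfl fun d _ => ?_
  rw [integral_const_mul]
  split_ifs <;> simp

/-- the weights -/
lemma weight {a b c d : ℕ} (h : a + b = c + d) :
    (-1 : ℂ) ^ (c + d) * ep a b (-(c : ℤ)) (-(d : ℤ)) =
      ((1 / 3 : ℝ) * (1 + (-1) ^ (a + c) + (-1) ^ (a + d)) : ℝ) := by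
  unfold ep
  push_cast
  have P : ∀ n : ℕ, (-1 : ℂ) ^ n = if n % 2 = 0 then 1 else -1 := by
    intro n
    rcases Nat.mod_two_eq_zero_or_one n with h | h
    · rw [if_pos h, (Nat.even_iff.2 h).neg_one_pow]
    · rw [if_neg (by omega), (Nat.odd_iff.2 h).neg_one_pow]
  rw [P, P, P]
  rcases Nat.mod_two_eq_zero_or_one a with ha | ha <;>
  rcases Nat.mod_two_eq_zero_or_one b with hb | hb <;>
  rcases Nat.mod_two_eq_zero_or_one c with hc | hc <;>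
  rcases Nat.mod_two_eq_zero_or_one d with hd | hd <;>
  first
  | (exfalso; omega)
  | (split_ifs <;> first | (exfalso; omega) | norm_num)

end Pool.Agent.P8H31.PW
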