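import Mathlib

/-!
Project PWV (helper31): local plane waves and the fourth moment. Finite combinatorics.

THREE packages, Mathlib only. `N ≥ 1` throughout.

FOU (60 lines): the fourth moment of a trigonometric polynomial on the grid of `2N` points.
Proof: `ζ = exp(π i / N)` is a primitive root of order `2N`. Write `‖x‖^4 = x x conj x conj x`,
expand, exchange the sums: `∑_{j<2N} (ζ^(a+b) conj ζ^(c+d))^j` is `2N` if `a + b = c + d` and a
geometric sum `= 0` otherwise (`ζ^(a+b) = ζ^(c+d)` iff `a+b = c+d` since both are `< 2N`: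
`IsPrimitiveRoot.pow_inj`; `conj ζ = ζ⁻¹`).

SQR (30 lines): the same for the second moment.

WSUM (80 lines): `∑_{a+b=c+d} (1/3)(1 + (-1)^(a+c) + (-1)^(a+d)) = (2N^3+7N)/9`. Proof: for fixed
`a, c` the number of `(b, d)` with `a + b = c + d` is `N - |a - c|`; exchange `c` and `d` in the
third term; `∑_{a,c<N} (N - |a-c|) = (2N^3+N)/3` and `∑_{a,c<N} (-1)^(a+c) (N - |a-c|) = N` by
induction on `N`, from `∑_{a,c<N} |a-c| = (N^3-N)/3` and `∑_{a,c<N} (-1)^(a+c) |a-c|`, with the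
closed forms of `∑_{a<N} (-1)^a` and `∑_{j≤N} (-1)^j j`.

GSUM (50 lines): `∑_{a+b=c+d} ([a=b=0 and c=d=0] + [a=c][b=d] + [a=d][b=c]) = 2N^2+1`.
-/

set_option autoImplicit false
open Finset

namespace Pool.Agent.P8H31.PW

/-- `exp (π i j k / N)` -/
noncomputable def ze (N j k : ℕ) : ℂ := Complex.exp (Real.pi * Complex.I * j * k / N)

def S_FOU : Prop := ∀ N : ℕ, 1 ≤ N → ∀ p : ℕ → ℂ,
  ∑ j ∈ range (2 * N), ((‖∑ k ∈ range N, ze N j k * p k‖ ^ 4 : ℝ) : ℂ) =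
    2 * N * ∑ a ∈ range N, ∑ b ∈ range N, ∑ c ∈ range N, ∑ d ∈ range N,
      if a + b = c + d then p a * p b * (starRingEnd ℂ) (p c) * (starRingEnd ℂ) (p d) else 0

def S_SQR : Prop := ∀ N : ℕ, 1 ≤ N → ∀ p : ℕ → ℂ,
  ∑ j ∈ range (2 * N), ‖∑ k ∈ range N, ze N j k * p k‖ ^ 2 = 2 * N * ∑ a ∈ range N, ‖p a‖ ^ 2

def S_WSUM : Prop := ∀ N : ℕ,
  ∑ a ∈ range N, ∑ b ∈ range N, ∑ c ∈ range N, ∑ d ∈ range N,
    (if a + b = c + d then (1 / 3 : ℝ) * (1 + (-1) ^ (a + c) + (-1) ^ (a + d)) else 0) =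
    (2 * (N : ℝ) ^ 3 + 7 * N) / 9

def S_GSUM : Prop := ∀ N : ℕ, 1 ≤ N →
  ∑ a ∈ range N, ∑ b ∈ range N, ∑ c ∈ range N, ∑ d ∈ range N,
    (if a + b = c + d then ((if a + b = 0 then (1 : ℝ) else 0) +
      (if a = c ∧ b = d then 1 else 0) + (if a = d ∧ b = c then 1 else 0)) else 0) =
    2 * (N : ℝ) ^ 2 + 1

end Pool.Agent.P8H31.PW
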