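import Pool.Agent.Results.MP_4fa179_mp.FourthOrderRigidity
import Pool.Agent.P8H31.PW.Stm

/-! Project PWV (helper31): the analytic part. -/

set_option autoImplicit false
open MeasureTheory Filter Topology Complex ProbabilityTheory
open scoped ContDiff ENNReal

namespace Pool.Agent.P8H31.PW

open Pool.Agent.W745.RW (TF lap dx dy)
open Pool.Agent.Results.MP_4fa179_mp.FourthOrderRigidity (D sym W C G ep)

/-- the direction `π j / N` -/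
noncomputable def dir (N j : ℕ) : ℝ := Real.pi * j / N

/-- the plane wave coefficient -/
noncomputable def pw (ρ : ℂ → ℝ) (lam : ℝ) (u : ℂ → ℝ) (N : ℕ) (α : ℝ) (z : ℂ) : ℂ :=
  (1 / (N : ℂ)) * ∑ k ∈ Finset.range N, (sym α)⁻¹ ^ k * (D ρ lam)^[k] (fun w => (u w : ℂ)) z

lemma sym_inv (α : ℝ) : (sym α)⁻¹ = -I * cexp (α * I) := by
  unfold sym
  rw [mul_inv, inv_I, ← Complex.exp_neg]
  congr 2; ring

lemma sym_ze (N j k : ℕ) : (sym (dir N j))⁻¹ ^ k = ze N j k * (-I) ^ k := by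
  rw [sym_inv, mul_pow, ← Complex.exp_nat_mul, mul_comm]
  congr 1
  unfold ze dir
  congr 1
  push_cast
  ring

lemma pw_eq (ρ : ℂ → ℝ) (lam : ℝ) (u : ℂ → ℝ) (N j : ℕ) (z : ℂ) :
    pw ρ lam u N (dir N j) z = (1 / (N : ℂ)) * ∑ k ∈ Finset.range N,
      ze N j k * ((-I) ^ k * (D ρ lam)^[k] (fun w => (u w : ℂ)) z) := by
  unfold pw
  congr 1
  refine Finset.sum_congr rfl fun k _ => ?_
  rw [sym_ze]; ring

lemma conjW (ρ : ℂ → ℝ) (lam : ℝ) (u : ℂ → ℝ) (c : ℕ) (z : ℂ) :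
    (starRingEnd ℂ) ((D ρ lam)^[c] (fun w => (u w : ℂ)) z) =
      (-1) ^ c * W ρ lam u (-(c : ℤ)) z := by
  cases c with
  | zero =>
    show (starRingEnd ℂ) ((u z : ℝ) : ℂ) = (-1) ^ 0 * ((u z : ℝ) : ℂ)
    rw [conj_ofReal, pow_zero, one_mul]
  | succ k =>
    have e : (-((k + 1 : ℕ) : ℤ)) = Int.negSucc k := rfl
    rw [e]
    show _ = (-1) ^ (k + 1) * ((-1) ^ (k + 1) *
      (starRingEnd ℂ) ((D ρ lam)^[k + 1] (fun w => (u w : ℂ)) z))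
    rw [← mul_assoc, ← pow_add, Even.neg_one_pow ⟨k + 1, rfl⟩, one_mul]

lemma W_nat (ρ : ℂ → ℝ) (lam : ℝ) (u : ℂ → ℝ) (c : ℕ) (z : ℂ) :
    W ρ lam u (c : ℤ) z = (D ρ lam)^[c] (fun w => (u w : ℂ)) z := rfl

/-- pointwise identity -/
theorem point (FOU : S_FOU) (ρ : ℂ → ℝ) (lam : ℝ) (u : ℂ → ℝ) {N : ℕ} (hN : 1 ≤ N) (z : ℂ) :
    ((∑ j ∈ Finset.range (2 * N), ‖pw ρ lam u N (dir N j) z‖ ^ 4 : ℝ) : ℂ) =
      2 / (N : ℂ) ^ 3 * ∑ a ∈ Finset.range N, ∑ b ∈ Finset.range N, ∑ c ∈ Finset.range N,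
        ∑ d ∈ Finset.range N, if a + b = c + d then (-1) ^ (c + d) *
          (W ρ lam u a z * W ρ lam u b z * W ρ lam u (-(c : ℤ)) z * W ρ lam u (-(d : ℤ)) z)
          else 0 := by
  have N0 : (N : ℂ) ≠ 0 := by exact_mod_cast (by omega : N ≠ 0)
  have h := FOU N hN (fun k => (-I) ^ k * (D ρ lam)^[k] (fun w => (u w : ℂ)) z)
  have e1 : ∀ j, ‖pw ρ lam u N (dir N j) z‖ ^ 4 = (1 / (N : ℝ) ^ 4) *
      ‖∑ k ∈ Finset.range N, ze N j k * ((-I) ^ k * (D ρ lam)^[k] (fun w => (u w : ℂ)) z)‖ ^ 4 := by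
    intro j
    rw [pw_eq, norm_mul, mul_pow, norm_div, norm_one, Complex.norm_natCast, div_pow, one_pow]
  simp only [e1]
  rw [← Finset.mul_sum, ofReal_mul, ofReal_sum, h]
  rw [show ((1 / (N : ℝ) ^ 4 : ℝ) : ℂ) = 1 / (N : ℂ) ^ 4 by push_cast; rfl]
  rw [← mul_assoc]
  have e2 : 1 / (N : ℂ) ^ 4 * (2 * N) = 2 / (N : ℂ) ^ 3 := by field_simp
  rw [e2]
  congr 1
  refine Finset.sum_congr rfl fun a _ => Finset.sum_congr rfl fun b _ =>
    Finset.sum_congr rfl fun c _ => Finset.sum_congr rfl fun d _ => ?_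
  split_ifs with h0
  · rw [map_mul, map_mul, conjW, conjW, map_pow, map_pow, map_neg, conj_I, neg_neg, W_nat, W_nat]
    have e3 : (-I) ^ a * (-I) ^ b * (I ^ c * I ^ d) = (1 : ℂ) := by
      rw [← pow_add, ← pow_add, h0, ← mul_pow]
      simp
    calc (-I) ^ a * (D ρ lam)^[a] (fun w => (u w : ℂ)) z *
          ((-I) ^ b * (D ρ lam)^[b] (fun w => (u w : ℂ)) z) *
          (I ^ c * ((-1) ^ c * W ρ lam u (-(c : ℤ)) z)) *
          (I ^ d * ((-1) ^ d * W ρ lam u (-(d : ℤ)) z)) =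
        ((-I) ^ a * (-I) ^ b * (I ^ c * I ^ d)) * ((-1) ^ (c + d) *
          ((D ρ lam)^[a] (fun w => (u w : ℂ)) z * (D ρ lam)^[b] (fun w => (u w : ℂ)) z *
            W ρ lam u (-(c : ℤ)) z * W ρ lam u (-(d : ℤ)) z)) := by ring
      _ = _ := by rw [e3, one_mul]
  · rfl

end Pool.Agent.P8H31.PW
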